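import Pool.Agent.Helper68.SK.Goals

/-!
# Project SK, packet PROJ
-/

namespace Pool.Agent.Helper22.SK

open Finset Pool.Agent.Helper52.C2 Pool.Agent.Helper68.SK

theorem gProj : Pool.Agent.Helper68.SK.GoalProj := by
  intro hsub D D' _ _ _ _ f S hS
  obtain ⟨-, hadd, hsubt, hδ⟩ := hsub.2 D D' f
  rintro _ ⟨z0, hz0, rfl⟩ _ ⟨w, hw, rfl⟩ u hu
  have key : ∀ N : ℕ, ∀ z ∈ S, ∀ y, push f w y ≤ push f z0 y →
      push f z = push f z0 - δ u + δ y → (∑ a, |z a - w a|).toNat = N →
      ∃ y', push f z0 y' < push f w y' ∧ push f z0 - δ u + δ y' ∈ push f '' S := by
    intro N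
    induction N using Nat.strong_induction_on with
    | _ N ih =>
      intro z hz y hy hpz hN
      -- a point of the fibre of `y` with `w t < z t`
      have h1 : push f w y < push f z y := by
        have h2 : push f z y = push f z0 y - δ u y + δ y y := by
          rw [hpz]; rfl
        have h3 : (δ y : D' → ℤ) y = 1 := by simp [δ]
        by_cases hyu : y = u
        · subst hyu
          rw [h2]
          linarith
        · have h4 : (δ u : D' → ℤ) y = 0 := by
            simp [δ, hyu]
          rw [h2, h3, h4]
          linarith
      have h2 : ∃ t, f t = y ∧ w t < z t := by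
        by_contra hcon
        push Not at hcon
        have : push f z y ≤ push f w y := by
          unfold push
          apply Finset.sum_le_sum
          intro a _
          by_cases ha : f a = y
          · rw [if_pos ha, if_pos ha]
            exact hcon a ha
          · rw [if_neg ha, if_neg ha]
        linarith
      obtain ⟨t, ht, hwt⟩ := h2
      obtain ⟨t', ht', hz'⟩ := hS z hz w hw t hwt
      have hp' : push f (z - δ t + δ t') = push f z0 - δ u + δ (f t') := by
        rw [hadd, hsubt, hδ, hδ, hpz, ht]
        funext b
        simp only [Pi.add_apply, Pi.sub_apply]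
        ring
      by_cases hc : push f z0 (f t') < push f w (f t')
      · exact ⟨f t', hc, z - δ t + δ t', hz', hp'⟩
      · have hne : t ≠ t' := by
          rintro rfl
          exact absurd ht' (not_lt.mpr hwt.le)
        have hlt : ∑ a, |(z - δ t + δ t') a - w a| < ∑ a, |z a - w a| := by
          apply Finset.sum_lt_sum
          · intro a _
            simp only [Pi.add_apply, Pi.sub_apply]
            by_cases hat : a = t
            · subst hat
              have e1 : (δ a : D → ℤ) a = 1 := by simp [δ]
              have e2 : (δ t' : D → ℤ) a = 0 := by simp [δ, hne]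
              rw [e1, e2, abs_of_nonneg (by linarith), abs_of_nonneg (by linarith)]
              linarith
            · have e1 : (δ t : D → ℤ) a = 0 := by simp [δ, hat]
              by_cases hat' : a = t'
              · subst hat'
                have e2 : (δ a : D → ℤ) a = 1 := by simp [δ]
                rw [e1, e2, abs_of_nonpos (by linarith), abs_of_nonpos (by linarith)]
                linarith
              · have e2 : (δ t' : D → ℤ) a = 0 := by simp [δ, hat']
                rw [e1, e2]
                simp
          · refine ⟨t, Finset.mem_univ _, ?_⟩
            simp only [Pi.add_apply, Pi.sub_apply]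
            have e1 : (δ t : D → ℤ) t = 1 := by simp [δ]
            have e2 : (δ t' : D → ℤ) t = 0 := by simp [δ, hne]
            rw [e1, e2, abs_of_nonneg (by linarith), abs_of_nonneg (by linarith)]
            linarith
        have hnn : 0 ≤ ∑ a, |(z - δ t + δ t') a - w a| :=
          Finset.sum_nonneg fun _ _ => abs_nonneg _
        refine ih _ ?_ _ hz' (f t') (not_lt.mp hc) hp' rfl
        rw [← hN]
        omega
  refine key _ z0 hz0 u hu.le ?_ rfl
  funext b
  simp only [Pi.add_apply, Pi.sub_apply]
  ring

end Pool.Agent.Helper22.SK
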